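import Pool.Agent.K1H32.FE.Fin

/-!
# MP_56e4d4_pr: entropy of random walks on geometrically converging Fuchsian groups

Definitions (`Pool.Agent.K1H32.FE.Defs`): `PSL` is `PSL(2, R)` with its quotient topology, `Geo` is
geometric (Chabauty) convergence, `law S μ k` is the convolution power `μ^{*k}` of a probability
measure `μ` with finite support in `S`, `shannon` is Shannon entropy, `avez S μ` is the asymptotic
entropy `lim H(μ^{*k}) / k`, `IsFuchsian` means discrete, `FiniteCovolume Γ` says that the quotient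
of the hyperbolic plane by `Γ` has finite area, and `Data Γn Γ Sn S μn μ` collects the data of the
problem (with `Γ` Fuchsian, not necessarily of finite covolume).

(1) The asymptotic entropy exists.
(2) `h_n → h` for all data with a bounded number of generators.
(3) `liminf h_n ≥ h` for all data.
(4) Without a bound on the number of elements of `S_n` the assertion fails, even for
`Γ_n = Γ = PSL(2, Z)` and measures of full support: `h_n → ∞`.
-/

set_option autoImplicit false

open Filter Topology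

namespace Pool.Agent.Results.MP_56e4d4_pr.BoundedGenerators

open Pool.Agent.K1H32.FE

theorem result :
    (∀ (G : Type) [Group G] (S : Finset G) (μ : G → ℝ), IsProb S μ →
      Tendsto (fun k : ℕ => shannon (law S μ k) / k) atTop (𝓝 (avez S μ))) ∧
    (∀ (Γn : ℕ → Subgroup PSL) (Γ : Subgroup PSL) (Sn : ℕ → Finset PSL) (S : Finset PSL)
      (μn : ℕ → PSL → ℝ) (μ : PSL → ℝ), Data Γn Γ Sn S μn μ →
      (∃ M : ℕ, ∀ n, (Sn n).card ≤ M) →
      Tendsto (fun n => avez (Sn n) (μn n)) atTop (𝓝 (avez S μ))) ∧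
    (∀ (Γn : ℕ → Subgroup PSL) (Γ : Subgroup PSL) (Sn : ℕ → Finset PSL) (S : Finset PSL)
      (μn : ℕ → PSL → ℝ) (μ : PSL → ℝ), Data Γn Γ Sn S μn μ →
      ∀ ε : ℝ, 0 < ε → ∀ᶠ n in atTop, avez S μ - ε ≤ avez (Sn n) (μn n)) ∧
    (∃ (Γ : Subgroup PSL) (Sn : ℕ → Finset PSL) (S : Finset PSL) (μn : ℕ → PSL → ℝ)
      (μ : PSL → ℝ), Data (fun _ => Γ) Γ Sn S μn μ ∧ FiniteCovolume Γ ∧
      (∀ g ∈ S, 0 < μ g) ∧ (∀ n, ∀ g ∈ Sn n, 0 < μn n g) ∧
      Tendsto (fun n => avez (Sn n) (μn n)) atTop atTop) :=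
  ⟨fun _ _ S μ h => main_exists S μ h,
    fun _ _ _ _ _ _ hD ⟨_, hM⟩ => main_lim hD hM,
    fun _ _ _ _ _ _ hD _ hε => main_low hD hε,
    main_cex⟩

end Pool.Agent.Results.MP_56e4d4_pr.BoundedGenerators
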